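import Pool.Agent.helper26.IM.SpecA

set_option autoImplicit false

namespace Pool.Agent.helper26.IM

open Finset Pool.Agent.RRank Pool.Agent.helper35.MR

theorem ITR : ITR_stmt := by
  classical
  intro n B Δ 𝒰 D D₀ P Gd hloc hgen hP hfr
  have hne : Nonempty B := Filter.nonempty_of_neBot (𝒰 : Filter B)
  have key : ∀ r k : ℕ, k + r = n → ∀ b : Fin n → B, (∀ i : Fin n, (i : ℕ) < k → Gd i b) →
      P (fun j => if (j : ℕ) < k then D (b j) else D₀) := by
    intro r
    induction r with
    | zero =>
      intro k hk b hb
      have h1 : (fun j : Fin n => if (j : ℕ) < k then D (b j) else D₀) = fun j => D (b j) := by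
        funext j
        rw [if_pos (by have := j.2; omega)]
      rw [h1]
      exact hP b fun i => hb i (by have := i.2; omega)
    | succ r ih =>
      intro k hk b hb
      have hkn : k < n := by omega
      let k' : Fin n := ⟨k, hkn⟩
      set d : Fin n → Δ := fun j => if (j : ℕ) < k then D (b j) else D₀ with hd
      have h1 : ∀ᶠ c in (𝒰 : Filter B), P (Function.update d k' (D c)) := by
        filter_upwards [hgen k' b] with c hc
        have h2 := ih (k + 1) (by omega) (Function.update b k' c) (by
          intro i hi
          by_cases hik : i = k'
          · rw [hik]; exact hc
          · have hik' : (i : ℕ) < k := by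
              have : (i : ℕ) ≠ k := fun h => hik (Fin.ext h)
              omega
            refine hloc i b _ ?_ (hb i hik')
            intro j hj
            have hjk : j ≠ k' := by
              intro h
              rw [h] at hj
              have : (k' : ℕ) ≤ (i : ℕ) := hj
              simp only [k'] at this
              omega
            rw [Function.update_of_ne hjk])
        convert h2 using 1
        funext j
        by_cases hj : j = k'
        · subst hj
          rw [Function.update_self, Function.update_self, if_pos (by simp [k'])]
        · rw [Function.update_of_ne hj, Function.update_of_ne hj]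
          have hjk : (j : ℕ) ≠ k := fun h => hj (Fin.ext h)
          simp only [hd]
          by_cases hlt : (j : ℕ) < k
          · rw [if_pos hlt, if_pos (by omega)]
          · rw [if_neg hlt, if_neg (by omega)]
      have h3 := hfr d k' h1
      have h4 : Function.update d k' D₀ = d := by
        have h5 : d k' = D₀ := by
          simp only [hd, k']
          rw [if_neg (lt_irrefl k)]
        conv_lhs => rw [← h5]
        exact Function.update_eq_self k' d
      rw [h4] at h3
      exact h3
  have h0 := key n 0 (by omega) (fun _ => Classical.choice hne) (by intro i hi; omega)
  have e : (fun j : Fin n => if (j : ℕ) < 0 then D ((fun _ => Classical.choice hne : Fin n → B) j)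
      else D₀) = fun _ => D₀ := by
    funext j
    rw [if_neg (by omega)]
  rw [e] at h0
  exact h0

end Pool.Agent.helper26.IM
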