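import Pool.Agent.helper26.IM.SpecA

set_option autoImplicit false

namespace Pool.Agent.helper26.IM

open Finset Pool.Agent.RRank Pool.Agent.helper35.MR

/-- a linear combination as a finitely supported function -/
noncomputable def ZER_v {K Y : Type} [Field K] {m : ℕ} (y : Fin m → Y) (ν : Fin m → K) : Y →₀ K :=
  ∑ f, Finsupp.single (y f) (ν f)

theorem ZER_sum {K Y : Type} [Field K] {m : ℕ} (y : Fin m → Y) (ν : Fin m → K) (φ : Y → K) :
    ((ZER_v y ν).sum fun y c => c * φ y) = ∑ f, ν f * φ (y f) := by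
  have h : ((ZER_v y ν).sum fun y c => c * φ y) = Finsupp.linearCombination K φ (ZER_v y ν) := by
    rw [Finsupp.linearCombination_apply]
    rfl
  rw [h, ZER_v, map_sum]
  refine Finset.sum_congr rfl fun f _ => ?_
  rw [Finsupp.linearCombination_single, smul_eq_mul]

theorem ZER : ZER_stmt := by
  intro K _ X Y Z T 𝓊 p β γ d L hFS r m PX PY PZ hX hY hZ b' b'' hb' hb''
  obtain ⟨c, hc⟩ := hFS (ZER_v b'.y b'.ν) (ZER_v b''.z b''.ω) (by
    intro i
    rw [ZER_sum]
    obtain ⟨j, hj⟩ := hY i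
    rw [← hj]
    exact hb'.2.1 j) (by
    intro i
    rw [ZER_sum]
    obtain ⟨j, hj⟩ := hZ i
    rw [← hj]
    exact hb''.2.2 j)
  refine ⟨_, hc, ?_⟩
  intro b hb hbx
  have e1 : ∀ x : X, ((ZER_v b'.y b'.ν).sum fun y a => (ZER_v b''.z b''.ω).sum fun z b => a * b * T x y z)
      = ∑ f, ∑ g, b'.ν f * b''.ω g * T x (b'.y f) (b''.z g) := by
    intro x
    have h1 : ((ZER_v b'.y b'.ν).sum fun y a => (ZER_v b''.z b''.ω).sum fun z b => a * b * T x y z)
        = (ZER_v b'.y b'.ν).sum fun y a => a * ∑ g, b''.ω g * T x y (b''.z g) := by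
      refine Finsupp.sum_congr fun y _ => ?_
      rw [← ZER_sum b''.z b''.ω (fun z => T x y z), Finsupp.mul_sum]
      refine Finsupp.sum_congr fun z _ => ?_
      ring
    rw [h1, ZER_sum b'.y b'.ν (fun y => ∑ g, b''.ω g * T x y (b''.z g))]
    refine Finset.sum_congr rfl fun f _ => ?_
    rw [Finset.mul_sum]
    refine Finset.sum_congr rfl fun g _ => ?_
    ring
  have e2 : Blk.val T b b' b'' = ∑ e, b.μ e * ∑ i, c i * L i (b.x e) := by
    unfold Blk.val
    refine Finset.sum_congr rfl fun e _ => ?_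
    have h2 := hbx e
    have h3 : ((ZER_v b'.y b'.ν).sum fun y a => (ZER_v b''.z b''.ω).sum fun z b_1 =>
        a * b_1 * T (b.x e) y z) = ∑ i, c i * L i (b.x e) := h2
    rw [← h3, e1, Finset.mul_sum]
    refine Finset.sum_congr rfl fun f _ => ?_
    rw [Finset.mul_sum]
    refine Finset.sum_congr rfl fun g _ => ?_
    ring
  rw [e2]
  have e3 : ∑ e, b.μ e * ∑ i, c i * L i (b.x e) = ∑ i, c i * ∑ e, b.μ e * L i (b.x e) := by
    simp only [Finset.mul_sum]
    rw [Finset.sum_comm]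
    refine Finset.sum_congr rfl fun i _ => Finset.sum_congr rfl fun e _ => ?_
    ring
  rw [e3]
  refine Finset.sum_eq_zero fun i _ => ?_
  obtain ⟨j, hj⟩ := hX i
  have h4 := hb.1 j
  rw [hj] at h4
  rw [h4, mul_zero]

end Pool.Agent.helper26.IM
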